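import Pool.Agent.N71.EX.Stm
import Pool.Agent.N380.BI.PRD

/-!
# Project EX: SUMA, the sum of the boundary terms (helper67)
-/

set_option autoImplicit false

namespace Pool.Agent.N67.EX

open Finset Filter NumberField Pool.Agent.H38R2.CG Pool.Agent.N71.EX
open Pool.Agent.H38R2.CG.NFh (U mem_U card_U)
open scoped Classical

/-! ### the algebraic part -/

section alg

variable {K : Type} [Field K] [NumberField K] {D : ℕ}

theorem exists_alpha (e : Emb K D) {A : Ideal (𝓞 K)} (hA : A ≠ ⊥) {x : K} (hx : x ≠ 0)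
    (hI : Inv A x) : 1 ≤ |e.σ x * e.τ x| * (Ideal.absNorm A : ℝ) ∧
      ∃ α : 𝓞 K, α ≠ 0 ∧ α ∈ A ∧ |e.σ (α : K)| = |e.τ x| * (Ideal.absNorm A : ℝ) ∧
        |e.τ (α : K)| = |e.σ x| * (Ideal.absNorm A : ℝ) := by
  obtain ⟨B, hB⟩ := hI
  have hA' : (A : FractionalIdeal (nonZeroDivisors (𝓞 K)) K) ≠ 0 :=
    FractionalIdeal.coeIdeal_ne_zero.2 hA
  have hB0 : B ≠ ⊥ := by
    rintro rfl
    rw [FractionalIdeal.coeIdeal_bot, mul_eq_zero] at hB
    rcases hB with h | h
    · exact hx (FractionalIdeal.spanSingleton_eq_zero_iff.1 h)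
    · exact hA' h
  have h1 := congrArg FractionalIdeal.absNorm hB
  rw [map_mul, FractionalIdeal.absNorm_span_singleton, FractionalIdeal.coeIdeal_absNorm,
    FractionalIdeal.coeIdeal_absNorm] at h1
  have h2 : ((|Algebra.norm ℚ x| : ℚ) : ℝ) = |e.σ x * e.τ x| := by
    rw [Rat.cast_abs, e.nrm]
  have h3 := congrArg (fun q : ℚ => (q : ℝ)) h1
  simp only [Rat.cast_mul, Rat.cast_natCast] at h3
  rw [h2] at h3
  have hNB : 1 ≤ Ideal.absNorm B := Nat.one_le_iff_ne_zero.2 (fun h => hB0 (Ideal.absNorm_eq_zero_iff.1 h))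
  have hNBr : (1 : ℝ) ≤ (Ideal.absNorm B : ℝ) := by exact_mod_cast hNB
  refine ⟨by rw [h3]; exact hNBr, ?_⟩
  have h4 : (((Ideal.absNorm B : ℕ) : 𝓞 K) : K) ∈
      FractionalIdeal.spanSingleton (nonZeroDivisors (𝓞 K)) x *
        (A : FractionalIdeal (nonZeroDivisors (𝓞 K)) K) := by
    rw [hB, FractionalIdeal.mem_coeIdeal]
    exact ⟨_, Ideal.absNorm_mem B, rfl⟩
  obtain ⟨y, hy, hxy⟩ := FractionalIdeal.mem_singleton_mul.1 h4
  rw [FractionalIdeal.mem_coeIdeal] at hy
  obtain ⟨α, hα, rfl⟩ := hy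
  have hxy' : ((Ideal.absNorm B : ℕ) : K) = x * (α : K) := by
    rw [← hxy]; simp
  have hσ : ((Ideal.absNorm B : ℕ) : ℝ) = e.σ x * e.σ (α : K) := by
    rw [← map_mul, ← hxy', map_natCast]
  have hτ : ((Ideal.absNorm B : ℕ) : ℝ) = e.τ x * e.τ (α : K) := by
    rw [← map_mul, ← hxy', map_natCast]
  have hσx : 0 < |e.σ x| := abs_pos.2 (by rw [Ne, map_eq_zero]; exact hx)
  have hτx : 0 < |e.τ x| := abs_pos.2 (by rw [Ne, map_eq_zero]; exact hx)
  refine ⟨α, ?_, hα, ?_, ?_⟩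
  · rintro rfl
    simp at hσ
    rw [hσ] at hNB
    simp at hNB
  · have h5 : |e.σ x| * |e.σ (α : K)| = |e.σ x| * (|e.τ x| * (Ideal.absNorm A : ℝ)) := by
      rw [← abs_mul, ← hσ, ← mul_assoc, ← abs_mul, h3, abs_of_nonneg (by positivity)]
    exact mul_left_cancel₀ hσx.ne' h5
  · have h5 : |e.τ x| * |e.τ (α : K)| = |e.τ x| * (|e.σ x| * (Ideal.absNorm A : ℝ)) := by
      rw [← abs_mul, ← hτ, ← mul_assoc, ← abs_mul, mul_comm (e.τ x), h3,
        abs_of_nonneg (by positivity)]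
    exact mul_left_cancel₀ hτx.ne' h5

theorem norm_span (e : Emb K D) (α : 𝓞 K) :
    (Ideal.absNorm (Ideal.span {α}) : ℝ) = |e.σ (α : K)| * |e.τ (α : K)| := by
  rw [Ideal.absNorm_span_singleton, ← abs_mul, ← e.nrm, ← Algebra.coe_norm_int]
  simp

theorem card_dvd (hD : IsFund D) (hK : Module.finrank ℚ K = 2)
    (hdisc : NumberField.discr K = (D : ℤ)) (α : 𝓞 K) (hα : α ≠ 0) (F : Finset (Ideal (𝓞 K)))
    (hF : ∀ A ∈ F, α ∈ A) :
    F.card ≤ (Ideal.absNorm (Ideal.span {α})).divisors.card ^ 2 := by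
  set n := Ideal.absNorm (Ideal.span {α}) with hn
  have hn0 : n ≠ 0 := by
    rw [hn, Ne, Ideal.absNorm_eq_zero_iff, Ideal.span_singleton_eq_bot]
    exact hα
  calc F.card ≤ (n.divisors.biUnion (U K)).card := by
        apply Finset.card_le_card
        intro A hA
        rw [Finset.mem_biUnion]
        refine ⟨Ideal.absNorm A, ?_, mem_U.2 rfl⟩
        rw [Nat.mem_divisors]
        refine ⟨?_, hn0⟩
        apply Ideal.absNorm_dvd_absNorm_of_le
        rw [Ideal.span_singleton_le_iff_mem]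
        exact hF A hA
    _ ≤ ∑ m ∈ n.divisors, (U K m).card := Finset.card_biUnion_le
    _ ≤ ∑ m ∈ n.divisors, n.divisors.card := by
        refine Finset.sum_le_sum fun m hm => ?_
        have hm' := Nat.mem_divisors.1 hm
        have hm1 : 1 ≤ m := Nat.pos_of_mem_divisors hm
        refine (Pool.Agent.N380.BI.card_U_le hD hK hdisc m hm1).trans ?_
        exact Finset.card_le_card (Nat.divisors_subset_of_dvd hm'.2 hm'.1)
    _ = n.divisors.card ^ 2 := by
        rw [Finset.sum_const, smul_eq_mul, pow_two]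

end alg

/-! ### the sum over the box -/

theorem harm (U : ℕ) : ∑ u ∈ Finset.Icc (-(U : ℤ)) U, 1 / |(u : ℝ)| ≤
    2 * ∑ n ∈ Finset.Icc 1 U, 1 / (n : ℝ) := by
  induction U with
  | zero => simp
  | succ U ih =>
    have h1 : Finset.Icc (-((U + 1 : ℕ) : ℤ)) ((U + 1 : ℕ) : ℤ) =
        insert (((U + 1 : ℕ) : ℤ)) (insert (-((U + 1 : ℕ) : ℤ)) (Finset.Icc (-(U : ℤ)) U)) := by
      ext k
      simp only [Finset.mem_Icc, Finset.mem_insert]
      push_cast
      omega
    rw [h1, Finset.sum_insert, Finset.sum_insert, Finset.sum_Icc_succ_top (by omega)]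
    · have h2 : |(((-((U + 1 : ℕ) : ℤ) : ℤ)) : ℝ)| = ((U + 1 : ℕ) : ℝ) := by
        push_cast
        rw [abs_neg, abs_of_nonneg (by positivity)]
      have h3 : |((((U + 1 : ℕ) : ℤ)) : ℝ)| = ((U + 1 : ℕ) : ℝ) := by
        push_cast
        rw [abs_of_nonneg (by positivity)]
      rw [h2, h3]
      linarith
    · rw [Finset.mem_Icc]
      push_cast
      omega
    · rw [Finset.mem_insert, Finset.mem_Icc]
      push_cast
      omega

theorem harm_log (U : ℕ) : ∑ n ∈ Finset.Icc 1 U, 1 / (n : ℝ) ≤ 1 + Real.log U := by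
  have h := harmonic_le_one_add_log U
  rw [harmonic_eq_sum_Icc] at h
  push_cast at h
  simpa [one_div] using h

/-- the weight -/
noncomputable def gw (s : ℝ) (p : ℤ × ℤ) : ℝ :=
  if p.2 = 0 then 2 / |(p.1 : ℝ)| else 2 / (|(p.2 : ℝ)| * s)

theorem gw_nonneg {s : ℝ} (hs : 0 < s) (p : ℤ × ℤ) : 0 ≤ gw s p := by
  unfold gw
  split_ifs <;> positivity

theorem sumBox (U V : ℕ) (s L : ℝ) (hs : 0 < s) (hU : ∑ n ∈ Finset.Icc 1 U, 1 / (n : ℝ) ≤ L)
    (hV : ∑ n ∈ Finset.Icc 1 V, 1 / (n : ℝ) ≤ L) :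
    ∑ p ∈ (Finset.Icc (-(U : ℤ)) U) ×ˢ (Finset.Icc (-(V : ℤ)) V), gw s p ≤
      4 * L + (2 * U + 1) * (4 * L / s) := by
  have hUL := (harm U).trans (mul_le_mul_of_nonneg_left hU (by norm_num : (0 : ℝ) ≤ 2))
  have hVL := (harm V).trans (mul_le_mul_of_nonneg_left hV (by norm_num : (0 : ℝ) ≤ 2))
  rw [Finset.sum_product]
  have h1 : ∀ u ∈ Finset.Icc (-(U : ℤ)) U, ∑ v ∈ Finset.Icc (-(V : ℤ)) V, gw s (u, v) ≤
      2 * (1 / |(u : ℝ)|) + 4 * L / s := by
    intro u _
    have h2 : ∀ v ∈ Finset.Icc (-(V : ℤ)) V, gw s (u, v) ≤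
        (if v = 0 then 2 * (1 / |(u : ℝ)|) else 0) + 2 / s * (1 / |(v : ℝ)|) := by
      intro v _
      unfold gw
      by_cases hv : v = 0
      · subst hv
        simp
        rw [div_eq_mul_inv]
      · rw [if_neg hv, if_neg hv]
        have : |(v : ℝ)| ≠ 0 := by
          rw [Ne, abs_eq_zero]
          exact_mod_cast hv
        rw [zero_add]
        apply le_of_eq
        field_simp
    refine (Finset.sum_le_sum h2).trans ?_
    rw [Finset.sum_add_distrib, ← Finset.mul_sum, Finset.sum_ite_eq']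
    have h3 : (if (0 : ℤ) ∈ Finset.Icc (-(V : ℤ)) V then 2 * (1 / |(u : ℝ)|) else 0) ≤
        2 * (1 / |(u : ℝ)|) := by
      split_ifs
      · exact le_refl _
      · positivity
    have h4 : 2 / s * ∑ v ∈ Finset.Icc (-(V : ℤ)) V, 1 / |(v : ℝ)| ≤ 4 * L / s := by
      calc 2 / s * ∑ v ∈ Finset.Icc (-(V : ℤ)) V, 1 / |(v : ℝ)| ≤ 2 / s * (2 * L) :=
            mul_le_mul_of_nonneg_left hVL (by positivity)
        _ = 4 * L / s := by ring
    linarith
  refine (Finset.sum_le_sum h1).trans ?_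
  rw [Finset.sum_add_distrib, ← Finset.mul_sum, Finset.sum_const, nsmul_eq_mul, Int.card_Icc]
  have h5 : (((U : ℤ) + 1 - -(U : ℤ)).toNat : ℝ) = 2 * U + 1 := by
    have : ((U : ℤ) + 1 - -(U : ℤ)).toNat = 2 * U + 1 := by omega
    rw [this]; push_cast; ring
  rw [h5]
  linarith

/-! ### the main estimate -/

theorem t_SUMA : E_SUMA := by
  refine ⟨1, one_pos, fun ε hε => ?_⟩
  obtain ⟨Cd, hCd, hdiv⟩ := Pool.Agent.H510R2.divisor_bound (ε / 8) (by positivity)
  set CL : ℝ := 2 + 2 / ε with hCL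
  have hCL0 : 0 < CL := by positivity
  refine ⟨20 * (Cd ^ 2 * CL), by positivity, ?_⟩
  intro K _ _ D hD hK hdisc e X hX1 hX2 F hF x hx
  have hD1 : (1 : ℝ) ≤ D := by exact_mod_cast hD.1.le
  have hD0 : (0 : ℝ) < D := by linarith
  set s : ℝ := √(D : ℝ) with hs
  have hs0 : 0 < s := Real.sqrt_pos.2 hD0
  have hss : s * s = D := Real.mul_self_sqrt hD0.le
  have hs1 : 1 ≤ s := by nlinarith
  have hXD : (X : ℝ) ≤ D := by exact_mod_cast hX2
  have hX0 : (0 : ℝ) < X := by linarith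
  have hX1' : (1 : ℝ) ≤ X := by linarith
  set S : ℝ := √(s * X) with hS
  have hSS : S * S = s * X := Real.mul_self_sqrt (by positivity)
  have hS0 : 0 < S := Real.sqrt_pos.2 (by positivity)
  have hS1 : 1 ≤ S := by
    have : 1 ≤ S * S := by rw [hSS]; nlinarith
    nlinarith
  have hSD : S ≤ D := by
    have h1 : S * S ≤ D * D := by
      rw [hSS]
      have : s ≤ D := by nlinarith
      nlinarith
    nlinarith
  -- the mixed term
  have hmix : (X : ℝ) * √(X : ℝ) / (D : ℝ) ^ (1 / 4 : ℝ) = X * (S / s) := by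
    have h1 : (D : ℝ) ^ (1 / 4 : ℝ) = √s := by
      rw [Real.sqrt_eq_rpow, hs, Real.sqrt_eq_rpow, ← Real.rpow_mul hD0.le]
      norm_num
    have h2 : S = √s * √(X : ℝ) := by rw [hS, Real.sqrt_mul hs0.le]
    have h3 : √s * √s = s := Real.mul_self_sqrt hs0.le
    have h4 : 0 < √s := Real.sqrt_pos.2 hs0
    rw [h1, h2]
    have h5 : s = √s * √s := h3.symm
    rw [mul_div_assoc]
    congr 1
    rw [div_eq_div_iff h4.ne' hs0.ne']
    nlinarith
  rw [hmix]
  -- notation
  have ha : ∀ A ∈ F, (1 : ℝ) ≤ (Ideal.absNorm A : ℝ) ∧ (Ideal.absNorm A : ℝ) ≤ X := by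
    intro A hA
    obtain ⟨h1, h2⟩ := hF A hA
    have h3 : 1 ≤ Ideal.absNorm A := Nat.one_le_iff_ne_zero.2 (fun h => h1 (Ideal.absNorm_eq_zero_iff.1 h))
    exact ⟨by exact_mod_cast h3, by exact_mod_cast h2⟩
  have hm : ∀ A ∈ F, 0 < mx e (x A) := by
    intro A hA
    unfold mx
    refine lt_max_of_lt_left (abs_pos.2 ?_)
    rw [Ne, map_eq_zero]
    exact (hx A hA).1
  -- splitting
  rw [← Finset.sum_filter_add_sum_filter_not F (fun A => s ≤ mx e (x A) ^ 2 * (Ideal.absNorm A : ℝ))]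
  refine add_le_add ?_ ?_
  · -- large
    have h1 : ∀ A ∈ F.filter (fun A => s ≤ mx e (x A) ^ 2 * (Ideal.absNorm A : ℝ)),
        √(X : ℝ) / (√(Ideal.absNorm A : ℝ) * mx e (x A)) ≤ X / s := by
      intro A hA
      rw [Finset.mem_filter] at hA
      obtain ⟨hA, hν⟩ := hA
      have hm0 := hm A hA
      have ha0 : (0 : ℝ) < (Ideal.absNorm A : ℝ) := by linarith [(ha A hA).1]
      have hq : 0 < √(Ideal.absNorm A : ℝ) := Real.sqrt_pos.2 ha0
      have hqq : √(Ideal.absNorm A : ℝ) * √(Ideal.absNorm A : ℝ) = (Ideal.absNorm A : ℝ) :=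
        Real.mul_self_sqrt ha0.le
      have h4 : 0 < √s := Real.sqrt_pos.2 hs0
      have h5 : √s * √s = s := Real.mul_self_sqrt hs0.le
      have h6 : √s ≤ √(Ideal.absNorm A : ℝ) * mx e (x A) := by
        rw [Real.sqrt_le_left (by positivity)]
        calc s ≤ mx e (x A) ^ 2 * (Ideal.absNorm A : ℝ) := hν
          _ = (√(Ideal.absNorm A : ℝ) * mx e (x A)) ^ 2 := by
            rw [mul_pow, Real.sq_sqrt ha0.le]; ring
      have h7 : √s ≤ √(X : ℝ) := Real.sqrt_le_sqrt hX1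
      have h8 : √(X : ℝ) * √(X : ℝ) = X := Real.mul_self_sqrt hX0.le
      have h9 : 0 < √(X : ℝ) := Real.sqrt_pos.2 hX0
      calc √(X : ℝ) / (√(Ideal.absNorm A : ℝ) * mx e (x A)) ≤ √(X : ℝ) / √s :=
            div_le_div_of_nonneg_left h9.le h4 h6
        _ ≤ X / s := by
            rw [div_le_div_iff₀ h4 hs0]
            calc √(X : ℝ) * s = √(X : ℝ) * √s * √s := by rw [mul_assoc, h5]
              _ ≤ √(X : ℝ) * √(X : ℝ) * √s := by gcongr
              _ = X * √s := by rw [h8]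
    refine (Finset.sum_le_sum h1).trans ?_
    rw [Finset.sum_const, nsmul_eq_mul, one_mul]
    have h2 : ((F.filter (fun A => s ≤ mx e (x A) ^ 2 * (Ideal.absNorm A : ℝ))).card : ℝ) ≤ F.card := by
      exact_mod_cast Finset.card_filter_le _ _
    exact mul_le_mul_of_nonneg_right h2 (by positivity)
  · -- small
    set F' := F.filter (fun A => ¬ (s ≤ mx e (x A) ^ 2 * (Ideal.absNorm A : ℝ))) with hF'
    have hFF : ∀ A ∈ F', A ∈ F := fun A hA => (Finset.mem_filter.1 hA).1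
    have hex : ∀ A ∈ F', ∃ p : (ℤ × ℤ) × 𝓞 K, p.2 ≠ 0 ∧ p.2 ∈ A ∧
        e.σ (p.2 : K) = (p.1.1 + p.1.2 * s) / 2 ∧ e.τ (p.2 : K) = (p.1.1 - p.1.2 * s) / 2 ∧
        |e.σ (p.2 : K)| ≤ mx e (x A) * (Ideal.absNorm A : ℝ) ∧
        |e.τ (p.2 : K)| ≤ mx e (x A) * (Ideal.absNorm A : ℝ) := by
      intro A hA
      have hAF := hFF A hA
      obtain ⟨-, α, h1, h2, h3, h4⟩ := exists_alpha e (hF A hAF).1 (hx A hAF).1 (hx A hAF).2
      obtain ⟨u, v, -, hu, hv⟩ := e.int1 α
      refine ⟨((u, v), α), h1, h2, hu, hv, ?_, ?_⟩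
      · rw [h3]
        exact mul_le_mul_of_nonneg_right (le_max_right _ _) (by positivity)
      · rw [h4]
        exact mul_le_mul_of_nonneg_right (le_max_left _ _) (by positivity)
    choose! q hq using hex
    have hTS : ∀ A ∈ F', 0 < mx e (x A) * (Ideal.absNorm A : ℝ) ∧
        mx e (x A) * (Ideal.absNorm A : ℝ) ≤ S := by
      intro A hA
      have hAF := hFF A hA
      have hm0 := hm A hAF
      obtain ⟨ha1, ha2⟩ := ha A hAF
      have hν := (Finset.mem_filter.1 hA).2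
      rw [not_le] at hν
      refine ⟨by positivity, ?_⟩
      rw [hS]
      apply Real.le_sqrt_of_sq_le
      calc (mx e (x A) * (Ideal.absNorm A : ℝ)) ^ 2 =
          (mx e (x A) ^ 2 * (Ideal.absNorm A : ℝ)) * (Ideal.absNorm A : ℝ) := by ring
        _ ≤ s * X := by
          apply mul_le_mul hν.le ha2 (by positivity) hs0.le
    -- coordinates
    have hu : ∀ A ∈ F', |((q A).1.1 : ℝ)| ≤ 2 * (mx e (x A) * (Ideal.absNorm A : ℝ)) := by
      intro A hA
      obtain ⟨-, -, h1, h2, h3, h4⟩ := hq A hA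
      have : ((q A).1.1 : ℝ) = e.σ ((q A).2 : K) + e.τ ((q A).2 : K) := by rw [h1, h2]; ring
      rw [this]
      refine (abs_add_le _ _).trans ?_
      linarith
    have hv : ∀ A ∈ F', |((q A).1.2 : ℝ)| * s ≤ 2 * (mx e (x A) * (Ideal.absNorm A : ℝ)) := by
      intro A hA
      obtain ⟨-, -, h1, h2, h3, h4⟩ := hq A hA
      have : ((q A).1.2 : ℝ) * s = e.σ ((q A).2 : K) - e.τ ((q A).2 : K) := by rw [h1, h2]; ring
      have h5 : |((q A).1.2 : ℝ)| * s = |((q A).1.2 : ℝ) * s| := by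
        rw [abs_mul, abs_of_pos hs0]
      rw [h5, this]
      refine (abs_sub _ _).trans ?_
      linarith
    -- the terms
    have hterm : ∀ A ∈ F', √(X : ℝ) / (√(Ideal.absNorm A : ℝ) * mx e (x A)) ≤ X * gw s (q A).1 := by
      intro A hA
      have hAF := hFF A hA
      have hm0 := hm A hAF
      obtain ⟨ha1, ha2⟩ := ha A hAF
      have ha0 : (0 : ℝ) < (Ideal.absNorm A : ℝ) := by linarith
      obtain ⟨hT0, hT1⟩ := hTS A hA
      have hu' := hu A hA
      have hv' := hv A hA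
      obtain ⟨g0, -, g1, g2, -, -⟩ := hq A hA
      have h9 : 0 < √(X : ℝ) := Real.sqrt_pos.2 hX0
      have hqa : 0 < √(Ideal.absNorm A : ℝ) := Real.sqrt_pos.2 ha0
      have hqq : √(Ideal.absNorm A : ℝ) * √(Ideal.absNorm A : ℝ) = (Ideal.absNorm A : ℝ) :=
        Real.mul_self_sqrt ha0.le
      have h8 : √(X : ℝ) * √(X : ℝ) = X := Real.mul_self_sqrt hX0.le
      have hle : √(Ideal.absNorm A : ℝ) ≤ √(X : ℝ) := Real.sqrt_le_sqrt ha2
      have h1 : √(X : ℝ) / (√(Ideal.absNorm A : ℝ) * mx e (x A)) ≤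
          X / (mx e (x A) * (Ideal.absNorm A : ℝ)) := by
        rw [div_le_div_iff₀ (by positivity) hT0]
        calc √(X : ℝ) * (mx e (x A) * (Ideal.absNorm A : ℝ)) =
            √(X : ℝ) * (mx e (x A) * (√(Ideal.absNorm A : ℝ) * √(Ideal.absNorm A : ℝ))) := by
              rw [hqq]
          _ = √(X : ℝ) * √(Ideal.absNorm A : ℝ) * (√(Ideal.absNorm A : ℝ) * mx e (x A)) := by
              ring
          _ ≤ √(X : ℝ) * √(X : ℝ) * (√(Ideal.absNorm A : ℝ) * mx e (x A)) := by gcongr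
          _ = X * (√(Ideal.absNorm A : ℝ) * mx e (x A)) := by rw [h8]
      refine h1.trans ?_
      rw [div_eq_mul_inv]
      refine mul_le_mul_of_nonneg_left ?_ hX0.le
      unfold gw
      by_cases h0 : (q A).1.2 = 0
      · rw [if_pos h0]
        have hne : ((q A).1.1 : ℝ) ≠ 0 := by
          intro h
          apply g0
          have : e.σ ((q A).2 : K) = 0 := by rw [g1, h, h0]; simp
          rw [map_eq_zero] at this
          exact_mod_cast this
        have hpos : 0 < |((q A).1.1 : ℝ)| := abs_pos.2 hne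
        rw [inv_eq_one_div, div_le_div_iff₀ hT0 hpos]
        linarith
      · rw [if_neg h0]
        have hne : ((q A).1.2 : ℝ) ≠ 0 := by exact_mod_cast h0
        have hpos : 0 < |((q A).1.2 : ℝ)| * s := mul_pos (abs_pos.2 hne) hs0
        rw [inv_eq_one_div, div_le_div_iff₀ hT0 hpos]
        linarith
    refine (Finset.sum_le_sum hterm).trans ?_
    -- the box
    set UU : ℕ := ⌊2 * S⌋₊ with hUU
    set VV' : ℕ := ⌊2 * S / s⌋₊ with hVV'
    set box := (Finset.Icc (-(UU : ℤ)) UU) ×ˢ (Finset.Icc (-(VV' : ℤ)) VV') with hbox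
    have hint : ∀ (k : ℤ) (R : ℝ), |(k : ℝ)| ≤ R → k ∈ Finset.Icc (-(⌊R⌋₊ : ℤ)) ⌊R⌋₊ := by
      intro k R hk
      have h1 : ((k.natAbs : ℕ) : ℝ) ≤ R := by
        rw [Nat.cast_natAbs, Int.cast_abs]; exact hk
      have h2 : k.natAbs ≤ ⌊R⌋₊ := Nat.le_floor h1
      rw [Finset.mem_Icc]
      omega
    have hmaps : ∀ A ∈ F', (q A).1 ∈ box := by
      intro A hA
      obtain ⟨hT0, hT1⟩ := hTS A hA
      rw [hbox, Finset.mem_product]
      refine ⟨hint _ _ ((hu A hA).trans (by linarith)), hint _ _ ?_⟩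
      rw [le_div_iff₀ hs0]
      exact (hv A hA).trans (by linarith)
    -- the multiplicity
    set M : ℝ := Cd ^ 2 * (D : ℝ) ^ (ε / 2) with hM
    have hM0 : 0 ≤ M := by positivity
    have hfib : ∀ p ∈ box, ((F'.filter (fun A => (q A).1 = p)).card : ℝ) ≤ M := by
      intro p _
      rcases (F'.filter (fun A => (q A).1 = p)).eq_empty_or_nonempty with h0 | ⟨A0, hA0⟩
      · rw [h0]; simpa using hM0
      · obtain ⟨hA0, hp0⟩ := Finset.mem_filter.1 hA0
        obtain ⟨g0, -, g1, -, g3, g4⟩ := hq A0 hA0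
        obtain ⟨hT0, hT1⟩ := hTS A0 hA0
        have hmem : ∀ A ∈ F'.filter (fun A => (q A).1 = p), (q A0).2 ∈ A := by
          intro A hA
          obtain ⟨hA, hp⟩ := Finset.mem_filter.1 hA
          obtain ⟨-, k1, k2, -, -, -⟩ := hq A hA
          have : e.σ ((q A0).2 : K) = e.σ ((q A).2 : K) := by rw [g1, k2, hp0, hp]
          have h2 := e.σ.injective this
          have h3 : (q A0).2 = (q A).2 := by exact_mod_cast h2
          rw [h3]; exact k1
        have h1 := card_dvd hD hK hdisc (q A0).2 g0 _ hmem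
        set n := Ideal.absNorm (Ideal.span {(q A0).2}) with hn
        have hn1 : 1 ≤ n := by
          rw [Nat.one_le_iff_ne_zero, hn, Ne, Ideal.absNorm_eq_zero_iff, Ideal.span_singleton_eq_bot]
          exact g0
        have hnD : (n : ℝ) ≤ (D : ℝ) ^ (2 : ℝ) := by
          rw [hn, norm_span e, Real.rpow_two]
          have k1 : |e.σ ((q A0).2 : K)| ≤ D := by linarith
          have k2 : |e.τ ((q A0).2 : K)| ≤ D := by linarith
          have k3 := abs_nonneg (e.σ ((q A0).2 : K))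
          have k4 := abs_nonneg (e.τ ((q A0).2 : K))
          calc |e.σ ((q A0).2 : K)| * |e.τ ((q A0).2 : K)| ≤ D * D := mul_le_mul k1 k2 k4 hD0.le
            _ = (D : ℝ) ^ 2 := by ring
        have h2 := hdiv n hn1
        have h3 : (n : ℝ) ^ (ε / 8) ≤ (D : ℝ) ^ (ε / 4) := by
          calc (n : ℝ) ^ (ε / 8) ≤ ((D : ℝ) ^ (2 : ℝ)) ^ (ε / 8) :=
                Real.rpow_le_rpow (by positivity) hnD (by positivity)
            _ = (D : ℝ) ^ (ε / 4) := by
                rw [← Real.rpow_mul hD0.le]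
                congr 1
                ring
        have h4 : (n.divisors.card : ℝ) ≤ Cd * (D : ℝ) ^ (ε / 4) :=
          h2.trans (mul_le_mul_of_nonneg_left h3 hCd.le)
        have h5 : ((F'.filter (fun A => (q A).1 = p)).card : ℝ) ≤ (n.divisors.card : ℝ) ^ 2 := by
          exact_mod_cast h1
        refine h5.trans ?_
        calc (n.divisors.card : ℝ) ^ 2 ≤ (Cd * (D : ℝ) ^ (ε / 4)) ^ 2 := by gcongr
          _ = M := by
            rw [hM, mul_pow, ← Real.rpow_natCast ((D : ℝ) ^ (ε / 4)) 2, ← Real.rpow_mul hD0.le]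
            congr 2
            push_cast
            ring
    have hsum1 : ∑ A ∈ F', X * gw s (q A).1 ≤ ∑ p ∈ box, M * (X * gw s p) := by
      rw [← Finset.sum_fiberwise_of_maps_to hmaps]
      refine Finset.sum_le_sum fun p hp => ?_
      have h1 : ∑ A ∈ F'.filter (fun A => (q A).1 = p), X * gw s (q A).1 =
          ∑ A ∈ F'.filter (fun A => (q A).1 = p), X * gw s p := by
        refine Finset.sum_congr rfl fun A hA => ?_
        rw [(Finset.mem_filter.1 hA).2]
      rw [h1, Finset.sum_const, nsmul_eq_mul]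
      exact mul_le_mul_of_nonneg_right (hfib p hp) (mul_nonneg hX0.le (gw_nonneg hs0 p))
    refine hsum1.trans ?_
    rw [← Finset.mul_sum, ← Finset.mul_sum]
    -- the logarithm
    set L : ℝ := CL * (D : ℝ) ^ (ε / 2) with hL
    have hL0 : 0 < L := by positivity
    have hlog : ∀ R : ℕ, (R : ℝ) ≤ 2 * D → ∑ n ∈ Finset.Icc 1 R, 1 / (n : ℝ) ≤ L := by
      intro R hR
      refine (harm_log R).trans ?_
      have h1 : Real.log R ≤ Real.log 2 + Real.log D := by
        rw [← Real.log_mul (by norm_num) hD0.ne']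
        rcases Nat.eq_zero_or_pos R with h0 | h0
        · rw [h0]
          simp only [Nat.cast_zero, Real.log_zero]
          exact Real.log_nonneg (by linarith)
        · exact Real.log_le_log (by exact_mod_cast h0) hR
      have h2 : Real.log 2 ≤ 1 := by
        have := Real.log_two_lt_d9
        linarith
      have h3 : Real.log D ≤ (D : ℝ) ^ (ε / 2) / (ε / 2) := Real.log_le_rpow_div hD0.le (by positivity)
      have h4 : 1 ≤ (D : ℝ) ^ (ε / 2) := Real.one_le_rpow hD1 (by positivity)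
      have h5 : (D : ℝ) ^ (ε / 2) / (ε / 2) = 2 / ε * (D : ℝ) ^ (ε / 2) := by
        field_simp
      rw [hL, hCL]
      rw [h5] at h3
      linarith
    have hU1 : (UU : ℝ) ≤ 2 * S := Nat.floor_le (by positivity)
    have hV1 : (VV' : ℝ) ≤ 2 * S / s := Nat.floor_le (by positivity)
    have hV2 : 2 * S / s ≤ 2 * S := div_le_self (by positivity) hs1
    have hbx := sumBox UU VV' s L hs0 (hlog UU (by linarith)) (hlog VV' (by linarith))
    have hbx2 : ∑ p ∈ box, gw s p ≤ 20 * (L * (1 + S / s)) := by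
      refine hbx.trans ?_
      have h1 : (2 * (UU : ℝ) + 1) * (4 * L / s) ≤ (5 * S) * (4 * L / s) := by
        apply mul_le_mul_of_nonneg_right _ (by positivity)
        linarith
      have h2 : (5 * S) * (4 * L / s) = 20 * (L * (S / s)) := by ring
      nlinarith
    have hpw : (D : ℝ) ^ (ε / 2) * (D : ℝ) ^ (ε / 2) = (D : ℝ) ^ ε := by
      rw [← Real.rpow_add hD0]
      congr 1
      ring
    calc M * (X * ∑ p ∈ box, gw s p) ≤ M * (X * (20 * (L * (1 + S / s)))) := by gcongr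
      _ = 20 * (Cd ^ 2 * CL) * ((D : ℝ) ^ (ε / 2) * (D : ℝ) ^ (ε / 2)) * (X + X * (S / s)) := by
        rw [hM, hL]; ring
      _ = 20 * (Cd ^ 2 * CL) * (D : ℝ) ^ ε * (X + X * (S / s)) := by rw [hpw]

end Pool.Agent.N67.EX
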